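import Pool.Agent.Helper31.BQ.Stmts2

/-!
# Row CP: the compact approximation property of `EE`
-/

set_option autoImplicit false

namespace Pool.Agent.Helper22.BQ

open Filter Topology Pool.Agent.Helper31.BQ

theorem cp22_lin {H ι : Type*} [NormedAddCommGroup H] [NormedSpace ℝ H] [Fintype ι]
    (S : H →L[ℝ] H) (c : ℝ) (a : ι → ℝ) (v : ι → H) :
    c • ∑ g, a g • S (v g) = S (c • ∑ g, a g • v g) := by
  rw [map_smul, map_sum]
  simp only [map_smul]

/-- the norm in `WW` -/
theorem cp22_norm {H : Type} [NormedAddCommGroup H] (x : WW H) :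
    ‖x‖ ^ 2 = ∑' k, ‖(x : ∀ k, GG k → H) k‖ ^ 2 := by
  have h := lp.norm_rpow_eq_tsum (p := 2) (by norm_num) x
  simpa using h

theorem cp22_sum {H : Type} [NormedAddCommGroup H] (x : WW H) :
    Summable fun k => ‖(x : ∀ k, GG k → H) k‖ ^ 2 := by
  have h := (lp.memℓp x).summable (p := 2) (by norm_num)
  simpa using h

/-- row CP -/
theorem st_CP (h1 : ST_CL) (h2 : ST_DG) : ST_CP := by
  intro H _ _ _ _ J e w S T hS σ τ
  obtain ⟨-, -, -, -, hJT, hT1, hTf, hT0, hTx⟩ := hS
  choose D hD1 hD2 hD3 using fun n => h2 H (T n) (hT1 n)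
  have hcl := (h1 H J σ τ).1
  -- the space is invariant
  have hmem : ∀ (n : ℕ) (x : EE J σ τ), D n (x : WW H) ∈ EE J σ τ := by
    intro n x
    change Con J σ τ _
    intro k j
    have hx : Con J σ τ ((x : WW H) : ∀ k, GG k → H) := x.2
    have e1 : ∀ k g, ((D n (x : WW H) : WW H) : ∀ k, GG k → H) k g =
      T n k (((x : WW H) : ∀ k, GG k → H) k g) := fun k g => hD1 n x k g
    have e2 : ∀ k (y : H), J k (T n k y) = S n (J k y) := fun k y =>
      congrArg (fun f : H →L[ℝ] H => f y) (hJT n k)
    simp only [e1, e2]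
    rw [cp22_lin (S n), cp22_lin (S n), hx k j]
  -- strong convergence
  have hlim : ∀ x : WW H, Tendsto (fun n => D n x) atTop (𝓝 x) := by
    intro x
    rw [tendsto_iff_norm_sub_tendsto_zero]
    have key : Tendsto (fun n => ‖D n x - x‖ ^ 2) atTop (𝓝 0) := by
      have e0 : (0 : ℝ) = ∑' _k : ℕ, (0 : ℝ) := tsum_zero.symm
      simp only [cp22_norm]
      rw [e0]
      have hb : ∀ n k, ‖((D n x - x : WW H) : ∀ k, GG k → H) k‖ ≤
          2 * ‖(x : ∀ k, GG k → H) k‖ := by
        intro n k
        rw [pi_norm_le_iff_of_nonneg (by positivity)]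
        intro g
        have e1 : ((D n x - x : WW H) : ∀ k, GG k → H) k g =
            T n k ((x : ∀ k, GG k → H) k g) - (x : ∀ k, GG k → H) k g := by
          rw [lp.coeFn_sub]
          have := hD1 n x k g
          simp only [cd] at this
          simp only [Pi.sub_apply]
          rw [this]
        rw [e1]
        have h3 : ‖(x : ∀ k, GG k → H) k g‖ ≤ ‖(x : ∀ k, GG k → H) k‖ := norm_le_pi_norm _ g
        have h4 : ‖T n k ((x : ∀ k, GG k → H) k g)‖ ≤ ‖(x : ∀ k, GG k → H) k g‖ := by
          have := (T n k).le_of_opNorm_le (hT1 n k) ((x : ∀ k, GG k → H) k g)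
          rwa [one_mul] at this
        refine (norm_sub_le _ _).trans ?_
        linarith
      refine tendsto_tsum_of_dominated_convergence
        (bound := fun k => 4 * ‖(x : ∀ k, GG k → H) k‖ ^ 2) ((cp22_sum x).mul_left 4) ?_ ?_
      · intro k
        have h5 : Tendsto (fun n => ((D n x - x : WW H) : ∀ k, GG k → H) k) atTop (𝓝 0) := by
          rw [tendsto_pi_nhds]
          intro g
          have e1 : ∀ n, ((D n x - x : WW H) : ∀ k, GG k → H) k g =
              T n k ((x : ∀ k, GG k → H) k g) - (x : ∀ k, GG k → H) k g := by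
            intro n
            rw [lp.coeFn_sub]
            have := hD1 n x k g
            simp only [cd] at this
            simp only [Pi.sub_apply]
            rw [this]
          simp only [e1]
          have h6 := (hTx k ((x : ∀ k, GG k → H) k g)).sub_const ((x : ∀ k, GG k → H) k g)
          rw [sub_self] at h6
          exact h6
        have h7 := (h5.norm).pow 2
        simpa using h7
      · refine Eventually.of_forall fun n k => ?_
        rw [Real.norm_of_nonneg (by positivity)]
        calc ‖((D n x - x : WW H) : ∀ k, GG k → H) k‖ ^ 2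
            ≤ (2 * ‖(x : ∀ k, GG k → H) k‖) ^ 2 :=
              pow_le_pow_left₀ (norm_nonneg _) (hb n k) 2
          _ = 4 * ‖(x : ∀ k, GG k → H) k‖ ^ 2 := by ring
    have h8 := (Real.continuous_sqrt.tendsto 0).comp key
    rw [Real.sqrt_zero] at h8
    refine h8.congr fun n => ?_
    simp only [Function.comp]
    exact Real.sqrt_sq (norm_nonneg _)
  -- the operators on the space
  set R : ℕ → EE J σ τ →L[ℝ] EE J σ τ := fun n =>
    ((D n).comp (EE J σ τ).subtypeL).codRestrict (EE J σ τ) (fun x => hmem n x) with hR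
  have hRv : ∀ n x, ((R n x : EE J σ τ) : WW H) = D n (x : WW H) := fun n x => rfl
  have hRc : ∀ n, IsCompactOperator (R n) := by
    intro n
    have h3 : IsCompactOperator (D n) := hD3 n (hTf n) (hT0 n)
    have h4 : IsCompactOperator ((D n).comp (EE J σ τ).subtypeL) := h3.comp_clm _
    exact h4.codRestrict (fun x => hmem n x) hcl
  have hRb : ∀ n x, ‖R n x‖ ≤ ‖x‖ := by
    intro n x
    have := (D n).le_of_opNorm_le (hD2 n) (x : WW H)
    rw [one_mul] at this
    exact this
  have hRl : ∀ x, Tendsto (fun n => ‖R n x - x‖) atTop (𝓝 0) := by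
    intro x
    have h3 := tendsto_iff_norm_sub_tendsto_zero.mp (hlim (x : WW H))
    exact h3
  intro K hK ε hε
  obtain ⟨t, -, htf, htc⟩ := hK.finite_cover_balls (show 0 < ε / 4 by positivity)
  have h3 : ∀ᶠ n in atTop, ∀ y ∈ t, ‖R n y - y‖ < ε / 4 := by
    rw [eventually_all_finite htf]
    intro y _
    exact (hRl y).eventually_lt_const (by positivity)
  obtain ⟨n, hn⟩ := h3.exists
  refine ⟨R n, hRc n, fun x hx => ?_⟩
  obtain ⟨y, hy, hxy⟩ := Set.mem_iUnion₂.mp (htc hx)
  rw [Metric.mem_ball, dist_eq_norm] at hxy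
  have e1 : R n x - x = R n (x - y) + (R n y - y) + (y - x) := by
    rw [map_sub]
    abel
  have h4 := hRb n (x - y)
  have h5 := hn y hy
  have h6 : ‖y - x‖ = ‖x - y‖ := norm_sub_rev _ _
  calc ‖R n x - x‖ ≤ ‖R n (x - y)‖ + ‖R n y - y‖ + ‖y - x‖ := by
        rw [e1]
        exact norm_add₃_le
    _ < ε := by linarith

end Pool.Agent.Helper22.BQ
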